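import Pool.Agent.Helper33.M.Dat

/-!
# T4', block M, piece D2': the number of lower parts
-/

set_option autoImplicit false

namespace Pool.Agent.Helper45.M

open Finset Pool.Agent.Helper27.T4 Pool.Agent.Helper5.ET Pool.Agent.Helper3.M Pool.Agent.Helper33.M

/-- the linear form, for all data (piece C) -/
def LinForm (s s' : ℕ) (w : Key → ℕ) (V V' : Finset ℕ) (n : ℕ) (f1 : Fin 3) : Prop :=
  ∀ (xd xd' : Fin 3 → ℕ) (t : ℕ), ∃ α E : ℕ, E.Coprime (pr f1) ∧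
    ∀ d ∈ Dat s s' w V V' n,
      (∀ f, f ∉ RR' s s' → f ≠ f1 → d.1.1.1 f = xd f ∧ d.1.2.1 f = xd' f) →
      (d.1.1.1 f1 * d.1.2.1 f1) % pr f1 ^ (cnt f1 (sl s') + 1) = t →
      (d.1.2.2 + Nj (sl s) / Nj (sl s') * d.1.1.2) % QQ s' =
        (α + E * ((d.1.1.1 f1 * d.1.2.1 f1) / pr f1 ^ (cnt f1 (sl s') + 1))) % QQ s'

theorem Nj_dvd {y z : ℕ} (h : y ≤ z) : Nj y ∣ Nj z := NN_dvd pr (fun f => cnt_mono f h)

theorem Nj_pos (y : ℕ) : 0 < Nj y := NN_pos pr_prime _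

theorem pow_dvd_Nj (f : Fin 3) {y z : ℕ} (h : y ≤ z) : pr f ^ cnt f y ∣ Nj z :=
  (pow_dvd_pow _ (cnt_mono f h)).trans (pow_dvd_NN pr (av z) f)

/-- membership -/
theorem mem_dat {s s' : ℕ} {w : Key → ℕ} {V V' : Finset ℕ} {n : ℕ} {d : Hit × (ℕ × ℕ)}
    (hd : d ∈ Dat s s' w V V' n) : (d.1.1.1 ∈ XX s ∧ d.1.1.2 ∈ V) ∧
      (d.1.2.1 ∈ XX s' ∧ d.1.2.2 ∈ V') ∧ (d.2.1 < Nj (se s) ∧ d.2.2 < Nj (se s')) ∧
      (d.2.1 + Nj (sl s) * d.1.1.2) + (d.2.2 + Nj (sl s') * d.1.2.2) = n ∧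
      (∀ f ∉ RR s s', ((d.2.1 : ℕ) : ZMod (pr f ^ av (se s) f)) = cmp s w d.1.1.1 f) ∧
      ∀ f ∉ RR' s s', ((d.2.2 : ℕ) : ZMod (pr f ^ av (se s') f)) = cmp s' w d.1.2.1 f := by
  rw [Dat, Finset.mem_filter, Finset.mem_product, Finset.mem_product, Finset.mem_product,
    Finset.mem_product, Finset.mem_product, Finset.mem_range, Finset.mem_range] at hd
  exact ⟨hd.1.1.1, hd.1.1.2, hd.1.2, hd.2.1, hd.2.2.1, hd.2.2.2⟩

theorem mem_XX {s : ℕ} {x : Fin 3 → ℕ} (h : x ∈ XX s) (f : Fin 3) :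
    (x f).Prime ∧ (x f).Coprime (pr f) ∧ (x f) ^ 2 < pr f ^ cnt f (sl s) := by
  rw [XX, Fintype.mem_piFinset] at h
  exact (Finset.mem_filter.1 (h f)).2

theorem cmp_eq (s : ℕ) (w : Key → ℕ) (x : Fin 3 → ℕ) (f : Fin 3) :
    Pool.Agent.Helper5.ET.cmp s w x f =
      Lg (pr f) (av (se s) f) (x f) + ((hv s w f x : ℕ) : ZMod (pr f ^ av (se s) f)) := rfl

/-- the sum of the indices -/
theorem sum_Lg {s s' : ℕ} (hs : s' ≤ s) (hse : se s' ≤ se s) (hsub : RR s s' ⊆ RR' s s')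
    {w : Key → ℕ} {V V' : Finset ℕ} {n : ℕ} {d : Hit × (ℕ × ℕ)} (hd : d ∈ Dat s s' w V V' n)
    (f : Fin 3) (hf : f ∉ RR' s s') :
    Lg (pr f) (cnt f (sl s')) (d.1.1.1 f) + Lg (pr f) (cnt f (sl s')) (d.1.2.1 f) =
      (n : ZMod (pr f ^ cnt f (sl s'))) - (hv s w f d.1.1.1 : ℕ) - (hv s' w f d.1.2.1 : ℕ) := by
  obtain ⟨⟨hx, -⟩, ⟨hx', -⟩, -, he, h1, h2⟩ := mem_dat hd
  have ha : cnt f (sl s') ≤ av (se s) f := cnt_mono f ((sl_le_se s').trans hse)
  have ha' : cnt f (sl s') ≤ av (se s') f := cnt_mono f (sl_le_se s')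
  have e1 := congrArg (ZMod.castHom (pow_dvd_pow (pr f) ha) (ZMod (pr f ^ cnt f (sl s'))))
    (h1 f (fun h => hf (hsub h)))
  have e2 := congrArg (ZMod.castHom (pow_dvd_pow (pr f) ha') (ZMod (pr f ^ cnt f (sl s'))))
    (h2 f hf)
  rw [cmp_eq, map_add, map_natCast, map_natCast,
    Lg_red (pr_prime f) (pr_ne_two f) _ _ _ (mem_XX hx f).2.1 ha] at e1
  rw [cmp_eq, map_add, map_natCast, map_natCast,
    Lg_red (pr_prime f) (pr_ne_two f) _ _ _ (mem_XX hx' f).2.1 ha'] at e2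
  have e3 := congrArg (Nat.cast : ℕ → ZMod (pr f ^ cnt f (sl s'))) he
  have z1 : ((Nj (sl s) : ℕ) : ZMod (pr f ^ cnt f (sl s'))) = 0 :=
    (ZMod.natCast_eq_zero_iff _ _).2 (pow_dvd_Nj f (sl_mono hs))
  have z2 : ((Nj (sl s') : ℕ) : ZMod (pr f ^ cnt f (sl s'))) = 0 :=
    (ZMod.natCast_eq_zero_iff _ _).2 (pow_dvd_Nj f le_rfl)
  push_cast at e3
  rw [z1, z2, zero_mul, zero_mul, add_zero, add_zero] at e3
  rw [← e3, e1, e2]
  ring

/-- the window of `v` -/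
theorem win_v {s s' : ℕ} {w : Key → ℕ} {V V' : Finset ℕ} {n : ℕ}
    (hV' : V' ⊆ Ico (vlo s') (vhi s')) {d : Hit × (ℕ × ℕ)} (hd : d ∈ Dat s s' w V V' n) :
    (n - (Nj (se s) + Nj (sk (s' + 1)))) / Nj (sl s) ≤ d.1.1.2 ∧
      d.1.1.2 < (n - (Nj (se s) + Nj (sk (s' + 1)))) / Nj (sl s) + LL s s' := by
  obtain ⟨⟨-, -⟩, ⟨-, hv'⟩, ⟨hy, hy'⟩, he, -, -⟩ := mem_dat hd
  have hp := Nj_pos (sl s)
  have hp' := Nj_pos (sl s')
  have h1 : Nj (sl s') * (d.1.2.2 + 1) ≤ Nj (sk (s' + 1)) - Nj (se s') := by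
    have h2 := (Finset.mem_Ico.1 (hV' hv')).2
    have h3 : d.1.2.2 + 1 ≤ (Nj (sk (s' + 1)) - Nj (se s')) / Nj (sl s') := h2
    calc Nj (sl s') * (d.1.2.2 + 1) ≤
        Nj (sl s') * ((Nj (sk (s' + 1)) - Nj (se s')) / Nj (sl s')) :=
          Nat.mul_le_mul_left _ h3
      _ ≤ _ := Nat.mul_div_le _ _
  have h4 : Nj (sl s') * (d.1.2.2 + 1) = Nj (sl s') * d.1.2.2 + Nj (sl s') := by ring
  have h5 : d.2.2 + Nj (sl s') * d.1.2.2 ≤ Nj (sk (s' + 1)) := by omega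
  constructor
  · refine Nat.div_le_of_le_mul ?_
    omega
  · have h6 : d.1.1.2 ≤ n / Nj (sl s) := by
      rw [Nat.le_div_iff_mul_le hp, mul_comm]
      omega
    have h7 : Nj (se s) / Nj (sl s) * Nj (sl s) = Nj (se s) :=
      Nat.div_mul_cancel (Nj_dvd (sl_le_se s))
    have h8 : 1 ≤ Nj (se s) / Nj (sl s) := by
      rw [Nat.le_div_iff_mul_le hp, one_mul]
      exact Nat.le_of_dvd (Nj_pos _) (Nj_dvd (sl_le_se s))
    have h9 : LL s s' = Nj (se s) / Nj (sl s) +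
        (Nj (se s) + Nj (sk (s' + 1))) / Nj (sl s) + 1 := by
      unfold LL
      have h10 : 2 * Nj (se s) + Nj (sk (s' + 1)) =
          Nj (sl s) * (Nj (se s) / Nj (sl s)) + (Nj (se s) + Nj (sk (s' + 1))) := by
        rw [mul_comm (Nj (sl s)), h7]
        ring
      rw [h10, Nat.mul_add_div hp]
    have h11 : n ≤ (n - (Nj (se s) + Nj (sk (s' + 1)))) + (Nj (se s) + Nj (sk (s' + 1))) := by
      omega
    have h12 : n / Nj (sl s) ≤ (n - (Nj (se s) + Nj (sk (s' + 1)))) / Nj (sl s) +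
        (Nj (se s) + Nj (sk (s' + 1))) / Nj (sl s) + 1 := by
      refine (Nat.div_le_div_right h11).trans ?_
      rw [Nat.div_le_iff_le_mul_add_pred hp]
      have h13 := Nat.div_add_mod (n - (Nj (se s) + Nj (sk (s' + 1)))) (Nj (sl s))
      have h14 := Nat.div_add_mod (Nj (se s) + Nj (sk (s' + 1))) (Nj (sl s))
      have h15 := Nat.mod_lt (n - (Nj (se s) + Nj (sk (s' + 1)))) hp
      have h16 := Nat.mod_lt (Nj (se s) + Nj (sk (s' + 1))) hp
      have h17 : Nj (sl s) * ((n - (Nj (se s) + Nj (sk (s' + 1)))) / Nj (sl s) +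
          (Nj (se s) + Nj (sk (s' + 1))) / Nj (sl s) + 1) =
          Nj (sl s) * ((n - (Nj (se s) + Nj (sk (s' + 1)))) / Nj (sl s)) +
          Nj (sl s) * ((Nj (se s) + Nj (sk (s' + 1))) / Nj (sl s)) + Nj (sl s) := by ring
      omega
    omega

theorem f1_grow {s s' b : ℕ} {f1 f0 : Fin 3} (h : Meso s s' b f1 f0) : f1 ∈ Pg s s' := by
  rw [Pg, Finset.mem_filter]
  refine ⟨mem_univ _, ?_⟩
  have hl : sl s' < sl s := lt_of_lt_of_le h.lb h.bl
  unfold cnt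
  refine Finset.card_lt_card (Finset.ssubset_iff_subset_ne.2
    ⟨Finset.filter_subset_filter _ (Finset.range_subset_range.mpr hl.le), fun he => ?_⟩)
  have h1 : sl s' ∈ (range (sl s)).filter (fun y => own y = f1) :=
    Finset.mem_filter.2 ⟨Finset.mem_range.2 hl, h.own1 _ le_rfl h.lb⟩
  rw [← he, Finset.mem_filter, Finset.mem_range] at h1
  exact lt_irrefl _ h1.1

theorem f0_of_grow {s s' b : ℕ} {f1 f0 : Fin 3} (h : Meso s s' b f1 f0) (f : Fin 3)
    (hf : f ∈ Pg s s') (hne : f ≠ f1) : f = f0 ∧ b < sl s := by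
  rw [Pg, Finset.mem_filter] at hf
  have h1 : ∃ t, sl s' ≤ t ∧ t < sl s ∧ own t = f := by
    by_contra hcon
    push Not at hcon
    refine absurd hf.2 (not_lt.2 ?_)
    unfold cnt
    refine Finset.card_le_card fun t ht => ?_
    rw [Finset.mem_filter, Finset.mem_range] at ht ⊢
    refine ⟨?_, ht.2⟩
    by_contra h2
    exact hcon t (not_lt.1 h2) ht.1 ht.2
  obtain ⟨t, ht1, ht2, ht3⟩ := h1
  rcases lt_or_ge t b with h2 | h2
  · exact absurd (ht3.symm.trans (h.own1 t ht1 h2)) hne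
  · exact ⟨ht3.symm.trans (h.own0 t h2 ht2), lt_of_le_of_lt h2 ht2⟩

theorem f1_not_pre {s s' b : ℕ} {f1 f0 : Fin 3} (h : Meso s s' b f1 f0) (f : Fin 3)
    (hf : f ∉ RR' s s') (hne : f ≠ f1) : f1 ∉ pre (sl s) f ∪ pre (sl s') f := by
  intro hmem
  have hg := f1_grow h
  by_cases hP : f ∈ Pg s s'
  · obtain ⟨rfl, hb⟩ := f0_of_grow h f hP hne
    have h1 := h.rank01 hb
    have h2 := h.rank _ _ hmem
    exact absurd h1 (not_lt.2 h2.le)
  · rcases Finset.mem_union.1 hmem with h1 | h1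
    · refine hf (h.sub ?_)
      rw [RR, Finset.mem_filter]
      exact ⟨mem_univ _, hP, Finset.not_disjoint_iff.2 ⟨f1, h1, hg⟩⟩
    · refine hf ?_
      rw [RR', Finset.mem_filter]
      exact ⟨mem_univ _, hP, Finset.not_disjoint_iff.2 ⟨f1, h1, hg⟩⟩

theorem third : ∀ f g : Fin 3, f ≠ g → ∃ f2, f2 ≠ f ∧ f2 ≠ g ∧ ∀ x, x ≠ f → x ≠ g → x = f2 := by
  decide

/-- equal masks -/
theorem hv_congr (s : ℕ) (w : Key → ℕ) (f : Fin 3) (x y : Fin 3 → ℕ)
    (h : ∀ g ∈ pre (sl s) f, x g = y g) : hv s w f x = hv s w f y := by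
  unfold hv
  have h1 : mask (pre (sl s) f) x = mask (pre (sl s) f) y := by
    funext g
    unfold mask
    split_ifs with hg
    · exact h g hg
    · rfl
  rw [h1]

theorem pr_small (f : Fin 3) : pr f - 1 ≤ 10 ^ 7 := by
  fin_cases f <;> (simp only [pr]; norm_num)

open Classical in
theorem lower_count_of {s s' b : ℕ} {f1 f0 : Fin 3} (h : Meso s s' b f1 f0) (w : Key → ℕ)
    (V V' : Finset ℕ) (B1 B2 R : ℕ) (hW : Win s s' f1 V V' B1 B2 R) (n : ℕ)
    (hL : LinForm s s' w V V' n f1) :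
    ((Dat s s' w V V' n).image (Lw s s')).card ≤ C0 * II1 s s' f1 * B1 * B2 := by
  have hss : s' ≤ s := by
    have := h.hss
    omega
  have hse := se_mono h.hss
  obtain ⟨g, hgR⟩ := h.nonempty
  have hg : g ∈ RR' s s' := h.sub hgR
  have hf1P := f1_grow h
  have hf1 : f1 ∉ RR' s s' := by
    intro h1
    rw [RR', Finset.mem_filter] at h1
    exact h1.2.1 hf1P
  have hne : f1 ≠ g := fun e => hf1 (e ▸ hg)
  obtain ⟨f2, h21, h2g, h2⟩ := third f1 g hne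
  have hU : ∀ f, f ∉ RR' s s' → f ≠ f1 → f = f2 := fun f hf hf' => h2 f hf' fun e => hf (e ▸ hg)
  -- the hash functions
  have hpre2 : ∀ f, f ∉ RR' s s' → f ≠ f1 → pre (sl s) f = ∅ ∧ pre (sl s') f = ∅ := by
    intro f hf hf'
    have hno : ∀ x ∈ pre (sl s) f ∪ pre (sl s') f, False := by
      intro x hx
      have a1 := h.off f hf x hx
      have a2 : x ≠ f1 := fun e => f1_not_pre h f hf hf' (e ▸ hx)
      have a3 := hU x a1 a2
      have a4 := hU f hf hf'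
      have a5 := h.rank f x hx
      rw [a3, a4] at a5
      exact lt_irrefl _ a5
    exact ⟨Finset.eq_empty_iff_forall_notMem.2 fun x hx => hno x (mem_union_left _ hx),
      Finset.eq_empty_iff_forall_notMem.2 fun x hx => hno x (mem_union_right _ hx)⟩
  have hpre1 : ∀ x ∈ pre (sl s) f1 ∪ pre (sl s') f1, x ∉ RR' s s' ∧ x = f2 := by
    intro x hx
    have a1 := h.off f1 hf1 x hx
    have a2 : x ≠ f1 := by
      intro e
      have a5 := h.rank f1 x hx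
      rw [e] at a5
      exact lt_irrefl _ a5
    exact ⟨a1, hU x a1 a2⟩
  set Z := (Dat s s' w V V' n).image (Lw s s') with hZ
  -- counting step by step
  have key : ∀ (S : Finset Hit) {β : Type} [DecidableEq β] (g' : Hit → β) (a c : ℕ),
      (∀ y, (S.filter (fun z => g' z = y)).card ≤ a) → (S.image g').card ≤ c →
        S.card ≤ a * c := by
    intro S β _ g' a c h1 h2
    exact (Finset.card_le_mul_card_image S a fun y _ => h1 y).trans (Nat.mul_le_mul_left _ h2)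
  -- the elements of `Z`
  have hZm : ∀ z ∈ Z, ∃ d ∈ Dat s s' w V V' n, Lw s s' d = z := fun z hz => by
    rw [hZ, Finset.mem_image] at hz
    exact hz
  have hval : ∀ d : Hit × (ℕ × ℕ), ∀ f, f ∉ RR' s s' →
      (Lw s s' d).1.1 f = d.1.1.1 f ∧ (Lw s s' d).2.1 f = d.1.2.1 f := by
    intro d f hf
    simp only [Lw, mask, Finset.mem_compl, hf, not_false_eq_true, if_true, and_self]
  have hzero : ∀ d : Hit × (ℕ × ℕ), ∀ f, f ∈ RR' s s' →
      (Lw s s' d).1.1 f = 0 ∧ (Lw s s' d).2.1 f = 0 := by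
    intro d f hf
    simp only [Lw, mask, Finset.mem_compl, hf, not_true_eq_false, if_false, and_self]
  set c1 := cnt f1 (sl s') with hc1
  -- step 1: `v`
  have step1 : (Z.image fun z => z.1.2).card ≤ B1 := by
    refine le_trans (Finset.card_le_card ?_)
      (hW.p1 ((n - (Nj (se s) + Nj (sk (s' + 1)))) / Nj (sl s)))
    intro v hv
    rw [Finset.mem_image] at hv
    obtain ⟨z, hz, rfl⟩ := hv
    obtain ⟨d, hd, rfl⟩ := hZm z hz
    rw [Finset.mem_filter]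
    exact ⟨(mem_dat hd).1.2, win_v hW.sub' hd⟩
  -- step 2: the known family
  set n2 := 2 * ((pr f2 - 1) * pr f2 ^ ((cnt f2 (sl s) - cnt f2 (sl s')) / 2)) with hn2
  have hn2pos : 1 ≤ n2 := by
    have h1 : 1 ≤ pr f2 - 1 := by
      have := (pr_prime f2).two_le
      omega
    have h2 : 1 ≤ pr f2 ^ ((cnt f2 (sl s) - cnt f2 (sl s')) / 2) :=
      Nat.one_le_pow _ _ (pr_prime f2).pos
    have h3 := Nat.mul_le_mul h1 h2
    omega
  have step2 : (Z.image fun z => (z.1.1 f2, z.2.1 f2)).card ≤ n2 := by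
    by_cases hf2 : f2 ∈ RR' s s'
    · refine le_trans ?_ hn2pos
      refine le_trans (Finset.card_le_card (t := {((0, 0) : ℕ × ℕ)}) ?_) (by simp)
      intro q hq
      rw [Finset.mem_image] at hq
      obtain ⟨z, hz, rfl⟩ := hq
      obtain ⟨d, hd, rfl⟩ := hZm z hz
      rw [(hzero d f2 hf2).1, (hzero d f2 hf2).2]
      exact mem_singleton_self _
    · refine Pool.Agent.Helper3.T4.card_pairs_le (pr_prime f2) (pr_ne_two f2) _ _
        (cnt_mono f2 (sl_mono hss))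
        ((n : ZMod (pr f2 ^ cnt f2 (sl s'))) - (hv s w f2 0 : ℕ) - (hv s' w f2 0 : ℕ)) _ ?_
      intro q hq
      rw [Finset.mem_image] at hq
      obtain ⟨z, hz, rfl⟩ := hq
      obtain ⟨d, hd, rfl⟩ := hZm z hz
      simp only [(hval d f2 hf2).1, (hval d f2 hf2).2]
      obtain ⟨⟨hx, -⟩, ⟨hx', -⟩, -, -, -, -⟩ := mem_dat hd
      obtain ⟨a1, a2, a3⟩ := mem_XX hx f2
      obtain ⟨b1, b2, b3⟩ := mem_XX hx' f2
      obtain ⟨p1, p2⟩ := hpre2 f2 hf2 h21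
      refine ⟨a1, b1, a2, b2, a3, b3, ?_⟩
      rw [sum_Lg hss hse h.sub hd f2 hf2,
        hv_congr s w f2 d.1.1.1 0 (fun x hx => by rw [p1] at hx; exact absurd hx (by simp)),
        hv_congr s' w f2 d.1.2.1 0 (fun x hx => by rw [p2] at hx; exact absurd hx (by simp))]
  -- step 3: the residue of the product
  have step3 : ∀ y2 : ℕ × ℕ, ((Z.filter fun z => (z.1.1 f2, z.2.1 f2) = y2).image
      fun z => (z.1.1 f1 * z.2.1 f1) % pr f1 ^ (c1 + 1)).card ≤ pr f1 - 1 := by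
    intro y2
    let u : Fin 3 → ℕ := fun _ => y2.1
    let u' : Fin 3 → ℕ := fun _ => y2.2
    refine le_trans (Finset.card_le_card ?_) (card_Lg_le (pr_prime f1) (pr_ne_two f1) c1
      ((n : ZMod (pr f1 ^ c1)) - (hv s w f1 u : ℕ) - (hv s' w f1 u' : ℕ)))
    intro m hm
    rw [Finset.mem_image] at hm
    obtain ⟨z, hz, rfl⟩ := hm
    rw [Finset.mem_filter] at hz
    obtain ⟨hz, hy⟩ := hz
    obtain ⟨d, hd, rfl⟩ := hZm z hz
    obtain ⟨⟨hx, -⟩, ⟨hx', -⟩, -, -, -, -⟩ := mem_dat hd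
    obtain ⟨a1, a2, a3⟩ := mem_XX hx f1
    obtain ⟨b1, b2, b3⟩ := mem_XX hx' f1
    have hc := Nat.Coprime.mul_left a2 b2
    rw [Finset.mem_filter, Finset.mem_range, (hval d f1 hf1).1, (hval d f1 hf1).2]
    refine ⟨Nat.mod_lt _ (pow_pos (pr_prime f1).pos _),
      Pool.Agent.Helper3.T4.mod_coprime c1 _ hc, ?_⟩
    rw [Pool.Agent.Helper3.T4.Lg_mod, Lg_mul (pr_prime f1) (pr_ne_two f1) c1 _ _ a2 b2,
      sum_Lg hss hse h.sub hd f1 hf1]
    rw [hv_congr s w f1 d.1.1.1 u (fun x hx => ?_), hv_congr s' w f1 d.1.2.1 u' (fun x hx => ?_)]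
    · obtain ⟨q1, q2⟩ := hpre1 x (mem_union_right _ hx)
      rw [← (hval d x q1).2, q2]
      exact congrArg Prod.snd hy
    · obtain ⟨q1, q2⟩ := hpre1 x (mem_union_left _ hx)
      rw [← (hval d x q1).1, q2]
      exact congrArg Prod.fst hy
  -- step 4: the quotient of the product, and `v'`
  have step4 : ∀ (v : ℕ) (y2 : ℕ × ℕ) (t : ℕ), ((((Z.filter fun z => z.1.2 = v).filter
      fun z => (z.1.1 f2, z.2.1 f2) = y2).filter
      fun z => (z.1.1 f1 * z.2.1 f1) % pr f1 ^ (c1 + 1) = t).image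
      fun z => ((z.1.1 f1 * z.2.1 f1) / pr f1 ^ (c1 + 1), z.2.2)).card ≤ B2 := by
    intro v y2 t
    obtain ⟨α, E, hE, hlin⟩ := hL (fun _ => y2.1) (fun _ => y2.2) t
    have hQ : 0 < QQ s' := Nat.div_pos
      (Nat.le_of_dvd (Nj_pos _) (Nj_dvd (sl_le_se s'))) (Nj_pos _)
    set q := Nj (sl s) / Nj (sl s') with hq
    refine le_trans (Finset.card_le_card ?_)
      (hW.p2 (α + (QQ s' * (q * v) - q * v)) E hE)
    intro m hm
    rw [Finset.mem_image] at hm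
    obtain ⟨z, hz, rfl⟩ := hm
    simp only [Finset.mem_filter] at hz
    obtain ⟨⟨⟨hz, hv⟩, hy⟩, ht⟩ := hz
    obtain ⟨d, hd, rfl⟩ := hZm z hz
    obtain ⟨⟨hx, -⟩, ⟨hx', hv'⟩, -, -, -, -⟩ := mem_dat hd
    obtain ⟨a1, a2, a3⟩ := mem_XX hx f1
    obtain ⟨b1, b2, b3⟩ := mem_XX hx' f1
    rw [(hval d f1 hf1).1, (hval d f1 hf1).2] at ht
    rw [Finset.mem_filter, Finset.mem_product, Finset.mem_range, (hval d f1 hf1).1,
      (hval d f1 hf1).2]
    refine ⟨⟨(Pool.Agent.Helper3.T4.prod_param (pr_prime f1) _ _ _ _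
      (cnt_mono f1 (sl_mono hss)) a3 b3).2, hv'⟩, ?_⟩
    have h5 := hlin d hd (fun f hf hf' => ?_) ht
    · have hv2 : d.1.1.2 = v := hv
      rw [hv2] at h5
      have h6 : q * v ≤ QQ s' * (q * v) := Nat.le_mul_of_pos_left _ hQ
      have h7 : d.1.2.2 + QQ s' * (q * v) =
          (d.1.2.2 + q * v) + (QQ s' * (q * v) - q * v) := by omega
      have h8 : ((d.1.2.2 + q * v) + (QQ s' * (q * v) - q * v)) % QQ s' =
          ((α + E * ((d.1.1.1 f1 * d.1.2.1 f1) / pr f1 ^ (c1 + 1))) +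
            (QQ s' * (q * v) - q * v)) % QQ s' := Nat.ModEq.add_right _ h5
      have h9 : (Lw s s' d).2.2 = d.1.2.2 := rfl
      show (Lw s s' d).2.2 % QQ s' = _
      rw [h9, ← Nat.add_mul_mod_self_left d.1.2.2 (QQ s') (q * v), h7, h8]
      congr 1
      ring
    · have e := hU f hf hf'
      subst e
      rw [← (hval d f hf).1, ← (hval d f hf).2]
      exact ⟨congrArg Prod.fst hy, congrArg Prod.snd hy⟩
  -- step 5: two choices
  have step5 : ∀ (v : ℕ) (y2 : ℕ × ℕ) (t : ℕ) (i : ℕ × ℕ), (((((Z.filter fun z => z.1.2 = v).filter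
      fun z => (z.1.1 f2, z.2.1 f2) = y2).filter
      fun z => (z.1.1 f1 * z.2.1 f1) % pr f1 ^ (c1 + 1) = t).filter
      fun z => ((z.1.1 f1 * z.2.1 f1) / pr f1 ^ (c1 + 1), z.2.2) = i)).card ≤ 2 := by
    intro v y2 t i
    set Y := ((((Z.filter fun z => z.1.2 = v).filter
      fun z => (z.1.1 f2, z.2.1 f2) = y2).filter
      fun z => (z.1.1 f1 * z.2.1 f1) % pr f1 ^ (c1 + 1) = t).filter
      fun z => ((z.1.1 f1 * z.2.1 f1) / pr f1 ^ (c1 + 1), z.2.2) = i) with hY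
    have hYm : ∀ z ∈ Y, ∃ d ∈ Dat s s' w V V' n, Lw s s' d = z ∧ z.1.2 = v ∧
        (z.1.1 f2, z.2.1 f2) = y2 ∧ z.1.1 f1 * z.2.1 f1 = t + pr f1 ^ (c1 + 1) * i.1 ∧
        z.2.2 = i.2 := by
      intro z hz
      simp only [hY, Finset.mem_filter] at hz
      obtain ⟨⟨⟨⟨hz, hv⟩, hy⟩, ht⟩, hi⟩ := hz
      obtain ⟨d, hd, hdz⟩ := hZm z hz
      refine ⟨d, hd, hdz, hv, hy, ?_, congrArg Prod.snd hi⟩
      have h5 : (z.1.1 f1 * z.2.1 f1) / pr f1 ^ (c1 + 1) = i.1 := congrArg Prod.fst hi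
      rw [← ht, ← h5]
      exact (Nat.mod_add_div _ _).symm
    have hinj : Set.InjOn (fun z : Hit => (z.1.1 f1, z.2.1 f1)) (Y : Set Hit) := by
      intro z hz z' hz' he
      obtain ⟨d, hd, hdz, hv, hy, -, hi⟩ := hYm z hz
      obtain ⟨d', hd', hdz', hv', hy', -, hi'⟩ := hYm z' hz'
      have e1 : ∀ f, z.1.1 f = z'.1.1 f ∧ z.2.1 f = z'.2.1 f := by
        intro f
        by_cases hf : f = f1
        · subst hf
          exact ⟨congrArg Prod.fst he, congrArg Prod.snd he⟩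
        · by_cases hf' : f = g
          · subst hf'
            rw [← hdz, ← hdz', (hzero d f hg).1, (hzero d f hg).2, (hzero d' f hg).1,
              (hzero d' f hg).2]
            exact ⟨rfl, rfl⟩
          · have e := h2 f hf hf'
            subst e
            have e3 := hy.trans hy'.symm
            exact ⟨congrArg Prod.fst e3, congrArg Prod.snd e3⟩
      refine Prod.ext (Prod.ext (funext fun f => (e1 f).1) (hv.trans hv'.symm))
        (Prod.ext (funext fun f => (e1 f).2) (hi.trans hi'.symm))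
    rw [← Finset.card_image_of_injOn hinj]
    refine card_two_primes_le _ (t + pr f1 ^ (c1 + 1) * i.1) ?_
    intro q hq
    rw [Finset.mem_image] at hq
    obtain ⟨z, hz, rfl⟩ := hq
    obtain ⟨d, hd, hdz, -, -, hm, -⟩ := hYm z hz
    obtain ⟨⟨hx, -⟩, ⟨hx', -⟩, -, -, -, -⟩ := mem_dat hd
    refine ⟨?_, ?_, hm⟩
    · rw [← hdz]
      show ((Lw s s' d).1.1 f1).Prime
      rw [(hval d f1 hf1).1]
      exact (mem_XX hx f1).1
    · rw [← hdz]
      show ((Lw s s' d).2.1 f1).Prime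
      rw [(hval d f1 hf1).2]
      exact (mem_XX hx' f1).1
  -- together
  have t4 : ∀ (v : ℕ) (y2 : ℕ × ℕ) (t : ℕ), (((Z.filter fun z => z.1.2 = v).filter
      fun z => (z.1.1 f2, z.2.1 f2) = y2).filter
      fun z => (z.1.1 f1 * z.2.1 f1) % pr f1 ^ (c1 + 1) = t).card ≤ 2 * B2 := fun v y2 t =>
    key _ (fun z => ((z.1.1 f1 * z.2.1 f1) / pr f1 ^ (c1 + 1), z.2.2)) 2 B2
      (step5 v y2 t) (step4 v y2 t)
  have t3 : ∀ (v : ℕ) (y2 : ℕ × ℕ), ((Z.filter fun z => z.1.2 = v).filter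
      fun z => (z.1.1 f2, z.2.1 f2) = y2).card ≤ 2 * B2 * (pr f1 - 1) := fun v y2 =>
    key _ (fun z => (z.1.1 f1 * z.2.1 f1) % pr f1 ^ (c1 + 1)) (2 * B2) (pr f1 - 1)
      (t4 v y2) (le_trans (Finset.card_le_card (Finset.image_subset_image
        (Finset.filter_subset_filter _ (Finset.filter_subset _ _)))) (step3 y2))
  have t2 : ∀ v : ℕ, (Z.filter fun z => z.1.2 = v).card ≤ 2 * B2 * (pr f1 - 1) * n2 := fun v =>
    key _ (fun z => (z.1.1 f2, z.2.1 f2)) (2 * B2 * (pr f1 - 1)) n2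
      (t3 v) (le_trans (Finset.card_le_card (Finset.image_subset_image
        (Finset.filter_subset _ _))) step2)
  have t1 : Z.card ≤ 2 * B2 * (pr f1 - 1) * n2 * B1 :=
    key _ (fun z => z.1.2) _ B1 t2 step1
  refine t1.trans ?_
  have hII : pr f2 ^ ((cnt f2 (sl s) - cnt f2 (sl s')) / 2) ≤ II1 s s' f1 := by
    unfold II1
    refine Nat.le_of_dvd (Finset.prod_pos fun f _ => pow_pos (pr_prime f).pos _) ?_
    exact Finset.dvd_prod_of_mem (fun f => pr f ^ ((cnt f (sl s) - cnt f (sl s')) / 2))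
      (Finset.mem_erase.2 ⟨h21, mem_univ _⟩)
  have hp1 := pr_small f1
  have hp2 := pr_small f2
  calc 2 * B2 * (pr f1 - 1) * n2 * B1
      = 4 * ((pr f1 - 1) * (pr f2 - 1)) *
        (pr f2 ^ ((cnt f2 (sl s) - cnt f2 (sl s')) / 2)) * B1 * B2 := by
        rw [hn2]
        ring
    _ ≤ C0 * II1 s s' f1 * B1 * B2 := by
        have h9 : 4 * ((pr f1 - 1) * (pr f2 - 1)) ≤ C0 := by
          have h10 := Nat.mul_le_mul hp1 hp2
          unfold C0
          calc 4 * ((pr f1 - 1) * (pr f2 - 1)) ≤ 4 * (10 ^ 7 * 10 ^ 7) :=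
                Nat.mul_le_mul_left _ h10
            _ ≤ 10 ^ 20 := by norm_num
        exact Nat.mul_le_mul_right _ (Nat.mul_le_mul_right _ (Nat.mul_le_mul h9 hII))

end Pool.Agent.Helper45.M
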