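import Pool.Agent.Helper45.M.Low

/-!
# T4', block M, piece C: the linear form
-/

set_option autoImplicit false

namespace Pool.Agent.Helper45.M

open Finset Pool.Agent.Helper27.T4 Pool.Agent.Helper5.ET Pool.Agent.Helper3.M Pool.Agent.Helper33.M

/-- the index equation modulo `p ^ cnt f (se s')` -/
theorem sum_Lg' {s s' : ℕ} (hse : se s' ≤ se s) (hsub : RR s s' ⊆ RR' s s')
    {w : Key → ℕ} {V V' : Finset ℕ} {n : ℕ} {d : Hit × (ℕ × ℕ)} (hd : d ∈ Dat s s' w V V' n)
    (f : Fin 3) (hf : f ∉ RR' s s') :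
    ((d.2.1 + d.2.2 : ℕ) : ZMod (pr f ^ av (se s') f)) =
      Lg (pr f) (av (se s') f) (d.1.1.1 f * d.1.2.1 f) +
        ((hv s w f d.1.1.1 : ℕ) + (hv s' w f d.1.2.1 : ℕ)) := by
  obtain ⟨⟨hx, -⟩, ⟨hx', -⟩, -, -, h1, h2⟩ := mem_dat hd
  have ha : av (se s') f ≤ av (se s) f := cnt_mono f hse
  have e1 := congrArg (ZMod.castHom (pow_dvd_pow (pr f) ha) (ZMod (pr f ^ av (se s') f)))
    (h1 f (fun h => hf (hsub h)))
  have e2 := h2 f hf
  rw [cmp_eq, map_add, map_natCast, map_natCast,
    Lg_red (pr_prime f) (pr_ne_two f) _ _ _ (mem_XX hx f).2.1 ha] at e1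
  rw [cmp_eq] at e2
  rw [Nat.cast_add, e1, e2, Lg_mul (pr_prime f) (pr_ne_two f) _ _ _ (mem_XX hx f).2.1
    (mem_XX hx' f).2.1]
  ring

theorem lin_form {s s' b : ℕ} {f1 f0 : Fin 3} (h : Meso s s' b f1 f0) (w : Key → ℕ)
    (V V' : Finset ℕ) (n : ℕ) : LinForm s s' w V V' n f1 := by
  intro xd xd' t
  have hss : s' ≤ s := by
    have := h.hss
    omega
  have hse := se_mono h.hss
  have hf1P := f1_grow h
  have hf1 : f1 ∉ RR' s s' := by
    intro h1
    rw [RR', Finset.mem_filter] at h1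
    exact h1.2.1 hf1P
  have hp1 := pr_prime f1
  set c := cnt f1 (sl s') with hc
  set P : Hit × (ℕ × ℕ) → Prop := fun d =>
    (∀ f, f ∉ RR' s s' → f ≠ f1 → d.1.1.1 f = xd f ∧ d.1.2.1 f = xd' f) ∧
      (d.1.1.1 f1 * d.1.2.1 f1) % pr f1 ^ (c + 1) = t with hP
  by_cases hex : ∃ d0 ∈ Dat s s' w V V' n, P d0
  swap
  · refine ⟨0, 1, Nat.coprime_one_left _, fun d hd h1 h2 => ?_⟩
    exact absurd ⟨d, hd, h1, h2⟩ hex
  obtain ⟨d0, hd0, hP0⟩ := hex
  -- `t` is prime to `p`
  have htc : t.Coprime (pr f1) := by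
    obtain ⟨⟨hx, -⟩, ⟨hx', -⟩, -⟩ := mem_dat hd0
    rw [← hP0.2]
    exact Pool.Agent.Helper3.T4.mod_coprime c _
      (Nat.Coprime.mul_left (mem_XX hx f1).2.1 (mem_XX hx' f1).2.1)
  have hgrow : av (se s') f1 ≤ 2 * c + 1 := (cnt_mono f1 hse).trans (h.grow f1)
  obtain ⟨β, hβ, hLg⟩ := grow hp1 (pr_ne_two f1) (av (se s') f1) c t htc hgrow
  -- the exponents
  set a : Fin 3 → ℕ := av (se s') with ha
  set b' : Fin 3 → ℕ := fun f => if f = f1 then c else a f with hb'
  have hb1 : b' f1 = c := if_pos rfl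
  obtain ⟨E, hE, hsing⟩ := exists_single pr_prime pr_inj (a := a) (b := b') f1
    (fun i hi => if_neg hi) β
  have hEc := hE hβ
  rw [hb1] at hsing
  have hinst : (fun a b : Fin 3 => Classical.propDecidable (a = b)) = instDecidableEqFin 3 :=
    Subsingleton.elim _ _
  rw [hinst] at hsing
  set G : ℕ := ∏ f ∈ univ.erase f1, pr f ^ (a f - cnt f (sl s')) with hG
  have hGc : G.Coprime (pr f1) := by
    refine Nat.Coprime.prod_left fun f hf => Nat.Coprime.pow_left _ ?_
    exact (Nat.coprime_primes (pr_prime f) hp1).2 fun e => (Finset.mem_erase.1 hf).1 (pr_inj e)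
  have hNN : NN pr b' = Nj (sl s') * G := by
    have e1 : NN pr b' = pr f1 ^ c * ∏ f ∈ univ.erase f1, pr f ^ a f := by
      unfold NN
      rw [← Finset.mul_prod_erase univ _ (mem_univ f1), hb1]
      congr 1
      exact Finset.prod_congr rfl fun f hf => by
        rw [hb']
        simp only
        rw [if_neg (Finset.mem_erase.1 hf).1]
    have e2 : Nj (sl s') = pr f1 ^ c * ∏ f ∈ univ.erase f1, pr f ^ cnt f (sl s') := by
      unfold Nj NN
      rw [← Finset.mul_prod_erase univ _ (mem_univ f1)]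
      rfl
    rw [e1, e2, mul_assoc, hG, ← Finset.prod_mul_distrib]
    congr 1
    refine Finset.prod_congr rfl fun f _ => ?_
    rw [← pow_add]
    congr 1
    have : cnt f (sl s') ≤ a f := cnt_mono f (sl_le_se s')
    omega
  -- the constants
  let r : ∀ f : Fin 3, ZMod (pr f ^ a f) := fun f =>
    if f ∈ RR' s s' then (n : ZMod (pr f ^ a f)) else
      Lg (pr f) (a f) (if f = f1 then t else xd f * xd' f) +
        ((hv s w f xd : ℕ) + (hv s' w f xd' : ℕ))
  have hr1 : r f1 = Lg (pr f1) (a f1) t + ((hv s w f1 xd : ℕ) + (hv s' w f1 xd' : ℕ)) := by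
    simp [r, hf1]
  -- the equation
  have hmain : ∀ d ∈ Dat s s' w V V' n, P d → ((d.2.1 + d.2.2 : ℕ) : ZMod (NN pr a)) =
      cc pr_prime pr_inj a r +
        ((Nj (sl s') * (G * E * ((d.1.1.1 f1 * d.1.2.1 f1) / pr f1 ^ (c + 1))) : ℕ) :
          ZMod (NN pr a)) := by
    intro d hd hPd
    obtain ⟨hk, ht⟩ := hPd
    set i := (d.1.1.1 f1 * d.1.2.1 f1) / pr f1 ^ (c + 1) with hi
    have h1 := hsing r i
    have h2 : Nj (sl s') * (G * E * i) = NN pr b' * (E * i) := by
      rw [hNN]
      ring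
    rw [h2, ← h1, natCast_eq_cc_iff]
    intro f
    have hpre : ∀ g ∈ pre (sl s) f ∪ pre (sl s') f, f ∉ RR' s s' → g ∉ RR' s s' ∧ g ≠ f1 := by
      intro g hg hf
      refine ⟨h.off f hf g hg, fun e => ?_⟩
      by_cases hff : f = f1
      · have h5 := h.rank f g hg
        rw [e, hff] at h5
        exact lt_irrefl _ h5
      · exact f1_not_pre h f hf hff (e ▸ hg)
    have hhv : f ∉ RR' s s' → hv s w f d.1.1.1 = hv s w f xd ∧
        hv s' w f d.1.2.1 = hv s' w f xd' := by
      intro hf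
      constructor
      · refine hv_congr s w f _ _ fun g hg => ?_
        obtain ⟨g1, g2⟩ := hpre g (mem_union_left _ hg) hf
        exact (hk g g1 g2).1
      · refine hv_congr s' w f _ _ fun g hg => ?_
        obtain ⟨g1, g2⟩ := hpre g (mem_union_right _ hg) hf
        exact (hk g g1 g2).2
    by_cases hff : f = f1
    · subst hff
      rw [Function.update_self, hr1, sum_Lg' hse h.sub hd f hf1, (hhv hf1).1, (hhv hf1).2]
      have h6 : d.1.1.1 f * d.1.2.1 f = t + i * pr f ^ (c + 1) := by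
        rw [← ht, hi, mul_comm _ (pr f ^ (c + 1))]
        exact (Nat.mod_add_div _ _).symm
      rw [h6, hLg i]
      ring
    · rw [Function.update_of_ne hff]
      by_cases hf : f ∈ RR' s s'
      · have h7 : r f = (n : ZMod (pr f ^ a f)) := if_pos hf
        have h8 : a f = cnt f (sl s') := stat_se h f hf
        obtain ⟨-, -, -, he, -, -⟩ := mem_dat hd
        have e3 := congrArg (Nat.cast : ℕ → ZMod (pr f ^ a f)) he
        have z1 : ((Nj (sl s) : ℕ) : ZMod (pr f ^ a f)) = 0 := by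
          rw [ZMod.natCast_eq_zero_iff, h8]
          exact pow_dvd_Nj f (sl_mono hss)
        have z2 : ((Nj (sl s') : ℕ) : ZMod (pr f ^ a f)) = 0 := by
          rw [ZMod.natCast_eq_zero_iff, h8]
          exact pow_dvd_Nj f le_rfl
        push_cast at e3
        rw [z1, z2, zero_mul, zero_mul, add_zero, add_zero] at e3
        rw [h7, ← e3]
        push_cast
        rfl
      · have h7 : r f = Lg (pr f) (a f) (xd f * xd' f) +
            ((hv s w f xd : ℕ) + (hv s' w f xd' : ℕ)) := by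
          simp only [r]
          rw [if_neg hf, if_neg hff]
        rw [sum_Lg' hse h.sub hd f hf, (hhv hf).1, (hhv hf).2, h7, (hk f hf hff).1,
          (hk f hf hff).2]
  -- the quotients
  have hNl := Nj_pos (sl s')
  have hq : Nj (sl s') * (Nj (sl s) / Nj (sl s')) = Nj (sl s) :=
    Nat.mul_div_cancel' (Nj_dvd (sl_mono hss))
  have hQ : Nj (sl s') * QQ s' = Nj (se s') := Nat.mul_div_cancel' (Nj_dvd (sl_le_se s'))
  have hQ0 : 0 < QQ s' := Nat.div_pos
    (Nat.le_of_dvd (Nj_pos _) (Nj_dvd (sl_le_se s'))) hNl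
  set q := Nj (sl s) / Nj (sl s') with hqd
  have hn : ∀ d ∈ Dat s s' w V V' n, P d → (n : ZMod (NN pr a)) = cc pr_prime pr_inj a r +
      ((Nj (sl s') * (G * E * ((d.1.1.1 f1 * d.1.2.1 f1) / pr f1 ^ (c + 1)) +
        (d.1.2.2 + q * d.1.1.2)) : ℕ) : ZMod (NN pr a)) := by
    intro d hd hPd
    obtain ⟨-, -, -, he, -, -⟩ := mem_dat hd
    have h1 := hmain d hd hPd
    have h2 : n = (d.2.1 + d.2.2) + Nj (sl s') * (d.1.2.2 + q * d.1.1.2) := by
      rw [← he, ← hq]
      ring
    rw [h2, Nat.cast_add, h1]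
    push_cast
    ring
  -- the divisor `p` of `QQ`
  have hpQ : pr f1 ∣ QQ s' := by
    have h1 : c < a f1 := by
      have hl : sl s' < se s' := by
        have h2 := h.lb
        have h3 : sl s' ≤ se s' := sl_le_se s'
        have h4 : sl s' ≠ se s' := by
          intro h5
          have h6 : tau (s' / 2) < tau (s' / 2 + 1) := by
            rw [tau]
            have h7 : 0 < gap (tau (s' / 2)) := by
              have hb : b ≠ sl s' := by omega
              by_contra h8
              have h9 : gap (tau (s' / 2)) = 0 := by omega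
              have h10 : ∀ j, tau (s' / 2 + j) = tau (s' / 2) := by
                intro j
                induction j with
                | zero => rfl
                | succ j ih => rw [← add_assoc, tau, ih, h9, add_zero]
              have h11 : tau (s / 2) = tau (s' / 2) := by
                have h12 := h10 (s / 2 - s' / 2)
                have h13 : s' / 2 + (s / 2 - s' / 2) = s / 2 := by omega
                rwa [h13] at h12
              have h14 : sl s' < sl s := lt_of_lt_of_le h.lb h.bl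
              unfold sl at h14
              omega
            omega
          have h7 : tau (s' / 2 + 1) ≤ se s' := tau_mono (by omega)
          unfold sl at h5
          omega
        omega
      have h2 : sl s' ∈ (range (se s')).filter (fun y => own y = f1) :=
        Finset.mem_filter.2 ⟨Finset.mem_range.2 hl, h.own1 _ le_rfl h.lb⟩
      rw [hc, ha]
      refine Finset.card_lt_card (Finset.ssubset_iff_subset_ne.2
        ⟨Finset.filter_subset_filter _ (Finset.range_subset_range.mpr hl.le), fun he => ?_⟩)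
      rw [← he, Finset.mem_filter, Finset.mem_range] at h2
      exact lt_irrefl _ h2.1
    have h2 : NN pr b' * pr f1 ∣ Nj (se s') := by
      have e1 : Nj (se s') = pr f1 ^ a f1 * ∏ f ∈ univ.erase f1, pr f ^ a f := by
        unfold Nj NN
        rw [← Finset.mul_prod_erase univ _ (mem_univ f1)]
      have e2 : NN pr b' = pr f1 ^ c * ∏ f ∈ univ.erase f1, pr f ^ a f := by
        unfold NN
        rw [← Finset.mul_prod_erase univ _ (mem_univ f1), hb1]
        congr 1
        exact Finset.prod_congr rfl fun f hf => by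
          rw [hb']
          simp only
          rw [if_neg (Finset.mem_erase.1 hf).1]
      rw [e1, e2]
      have e3 : pr f1 ^ c * (∏ f ∈ univ.erase f1, pr f ^ a f) * pr f1 =
          pr f1 ^ (c + 1) * ∏ f ∈ univ.erase f1, pr f ^ a f := by ring
      rw [e3]
      exact Nat.mul_dvd_mul (pow_dvd_pow _ h1) dvd_rfl
    rw [hNN, ← hQ, mul_assoc] at h2
    exact (Dvd.intro_left G rfl).trans ((Nat.mul_dvd_mul_iff_left hNl).1 h2)
  have hQc : (QQ s' - 1).Coprime (pr f1) := by
    have h1 : (QQ s' - 1).Coprime (QQ s') := by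
      have h2 : QQ s' = (QQ s' - 1) + 1 := by omega
      conv_rhs => rw [h2]
      exact (Nat.coprime_self_add_right).2 (Nat.coprime_one_right _)
    exact Nat.Coprime.coprime_dvd_right hpQ h1
  refine ⟨(G * E * ((d0.1.1.1 f1 * d0.1.2.1 f1) / pr f1 ^ (c + 1)) +
    (d0.1.2.2 + q * d0.1.1.2)), G * E * (QQ s' - 1),
    Nat.Coprime.mul_left (Nat.Coprime.mul_left hGc hEc) hQc, fun d hd h1 h2 => ?_⟩
  have h3 := (hn d hd ⟨h1, h2⟩).symm.trans (hn d0 hd0 hP0)
  have h4 := add_left_cancel h3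
  have hNa : NN pr a = Nj (sl s') * QQ s' := hQ.symm
  rw [ZMod.natCast_eq_natCast_iff, hNa] at h4
  have h5 := Nat.ModEq.mul_left_cancel' hNl.ne' h4
  set i := (d.1.1.1 f1 * d.1.2.1 f1) / pr f1 ^ (c + 1) with hi
  set A0 := G * E * ((d0.1.1.1 f1 * d0.1.2.1 f1) / pr f1 ^ (c + 1)) +
    (d0.1.2.2 + q * d0.1.1.2) with hA0
  show (d.1.2.2 + q * d.1.1.2) % QQ s' = (A0 + G * E * (QQ s' - 1) * i) % QQ s'
  have h6 : (A0 + G * E * (QQ s' - 1) * i) ≡
      (G * E * i + (d.1.2.2 + q * d.1.1.2)) + G * E * (QQ s' - 1) * i [MOD QQ s'] :=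
    Nat.ModEq.add_right _ h5.symm
  have h7 : (G * E * i + (d.1.2.2 + q * d.1.1.2)) + G * E * (QQ s' - 1) * i =
      (d.1.2.2 + q * d.1.1.2) + QQ s' * (G * E * i) := by
    have h8 : QQ s' = (QQ s' - 1) + 1 := by omega
    have h9 : QQ s' * (G * E * i) = (QQ s' - 1) * (G * E * i) + G * E * i := by
      conv_lhs => rw [h8]
      ring
    rw [h9]
    ring
  rw [h7] at h6
  have h8 : (A0 + G * E * (QQ s' - 1) * i) % QQ s' =
      ((d.1.2.2 + q * d.1.1.2) + QQ s' * (G * E * i)) % QQ s' := h6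
  rw [h8, Nat.add_mul_mod_self_left]

theorem lower_count {s s' b : ℕ} {f1 f0 : Fin 3} (h : Meso s s' b f1 f0) (w : Key → ℕ)
    (V V' : Finset ℕ) (B1 B2 R : ℕ) (hW : Win s s' f1 V V' B1 B2 R) (n : ℕ) :
    ((Dat s s' w V V' n).image (Lw s s')).card ≤ C0 * II1 s s' f1 * B1 * B2 :=
  lower_count_of h w V V' B1 B2 R hW n (lin_form h w V V' n)

end Pool.Agent.Helper45.M
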